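import Mathlib

/-!
# MP_c1a8be_al, Q1: termwise homogenization of infinite sums of Brooks quasimorphisms

For every non-abelian free group of finite rank there is an alternating coefficient map `α`,
supported on non-self-overlapping words and with values in `{-1, 0, 1}`, such that
`φ̃_α = ∑ α_w h̄_w` vanishes identically (so it is a quasimorphism), while `φ_α = ∑ α_w h_w` is not a
quasimorphism.
-/

set_option autoImplicit false

namespace Pool.Agent.Results.MP_c1a8be_al.BrooksSums

open Filter Topology FreeGroup

section defs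

variable {ι : Type} [DecidableEq ι]

/-- Number of occurrences of the word `w` as a subword of the word `G`. -/
def occ (w G : List (ι × Bool)) : ℕ :=
  ((Finset.range G.length).filter (fun i => w <+: G.drop i)).card

/-- Non-self-overlapping elements: nontrivial, and no nonempty proper prefix of the reduced word is
a suffix of it. -/
def NSO (w : FreeGroup ι) : Prop :=
  w ≠ 1 ∧ ∀ p : List (ι × Bool), p ≠ [] → p <+: w.toWord → p <:+ w.toWord → p = w.toWord

/-- The small Brooks quasimorphism `h_w` (for `w` non-self-overlapping): the number of occurrences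
of `w` minus the number of occurrences of `w⁻¹`. -/
def hh (w g : FreeGroup ι) : ℝ := (occ w.toWord g.toWord : ℝ) - occ (w⁻¹).toWord g.toWord

/-- The homogenization of `h_w`. -/
noncomputable def hbar (w g : FreeGroup ι) : ℝ := limUnder atTop (fun n : ℕ => hh w (g ^ n) / n)

/-- `Np` contains exactly one of `w`, `w⁻¹` for every non-self-overlapping `w`, and nothing else. -/
def IsHalf (Np : Set (FreeGroup ι)) : Prop :=
  (∀ w ∈ Np, NSO w) ∧ ∀ w, NSO w → Xor (w ∈ Np) (w⁻¹ ∈ Np)

/-- `φ_α`, the sum of the `α_w h_w` over `w ∈ Np` (for each `g` only finitely many terms are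
nonzero). -/
noncomputable def phi (α : FreeGroup ι → ℝ) (Np : Set (FreeGroup ι)) (g : FreeGroup ι) : ℝ :=
  ∑ᶠ w ∈ Np, α w * hh w g

/-- `φ̃_α`, the sum of the `α_w h̄_w` over `w ∈ Np` (for each `g` only finitely many terms are
nonzero). -/
noncomputable def phiTilde (α : FreeGroup ι → ℝ) (Np : Set (FreeGroup ι)) (g : FreeGroup ι) : ℝ :=
  ∑ᶠ w ∈ Np, α w * hbar w g

/-- Quasimorphisms. -/
def IsQuasimorphism (f : FreeGroup ι → ℝ) : Prop :=
  ∃ D : ℝ, ∀ g h, |f g + f h - f (g * h)| ≤ D

end defs

section occurrences

variable {ι : Type} [DecidableEq ι]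

theorem occ_append_ge (w l₁ l₂ : List (ι × Bool)) : occ w l₁ + occ w l₂ ≤ occ w (l₁ ++ l₂) := by
  unfold occ
  have h1 : ((Finset.range l₁.length).filter (fun i => w <+: l₁.drop i)) ⊆
      ((Finset.range (l₁ ++ l₂).length).filter (fun i => w <+: (l₁ ++ l₂).drop i)) := by
    intro i hi
    rw [Finset.mem_filter, Finset.mem_range] at hi ⊢
    refine ⟨by rw [List.length_append]; omega, ?_⟩
    rw [List.drop_append_of_le_length hi.1.le]
    exact hi.2.trans (List.prefix_append _ _)
  have h2 : ((Finset.range l₂.length).filter (fun i => w <+: l₂.drop i)).image (fun i => l₁.length + i) ⊆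
      ((Finset.range (l₁ ++ l₂).length).filter (fun i => w <+: (l₁ ++ l₂).drop i)) := by
    intro i hi
    rw [Finset.mem_image] at hi
    obtain ⟨j, hj, rfl⟩ := hi
    rw [Finset.mem_filter, Finset.mem_range] at hj ⊢
    refine ⟨by rw [List.length_append]; omega, ?_⟩
    rw [List.drop_append, List.drop_eq_nil_of_le (by omega), List.nil_append,
      Nat.add_sub_cancel_left]
    exact hj.2
  have hdisj : Disjoint ((Finset.range l₁.length).filter (fun i => w <+: l₁.drop i))
      (((Finset.range l₂.length).filter (fun i => w <+: l₂.drop i)).image (fun i => l₁.length + i)) := by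
    rw [Finset.disjoint_left]
    intro i hi hi'
    rw [Finset.mem_filter, Finset.mem_range] at hi
    rw [Finset.mem_image] at hi'
    obtain ⟨j, -, hj⟩ := hi'
    omega
  have hc : (((Finset.range l₂.length).filter (fun i => w <+: l₂.drop i)).image
      (fun i => l₁.length + i)).card = ((Finset.range l₂.length).filter (fun i => w <+: l₂.drop i)).card :=
    Finset.card_image_of_injective _ (add_right_injective _)
  rw [← hc, ← Finset.card_union_of_disjoint hdisj]
  exact Finset.card_le_card (Finset.union_subset h1 h2)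

theorem occ_append_le (w l₁ l₂ : List (ι × Bool)) :
    occ w (l₁ ++ l₂) ≤ occ w l₁ + occ w l₂ + w.length := by
  unfold occ
  have hsub : ((Finset.range (l₁ ++ l₂).length).filter (fun i => w <+: (l₁ ++ l₂).drop i)) ⊆
      ((Finset.range l₁.length).filter (fun i => w <+: l₁.drop i)) ∪
      (((Finset.range l₂.length).filter (fun i => w <+: l₂.drop i)).image (fun i => l₁.length + i)) ∪
      (Finset.range w.length).image (fun i => l₁.length - (i + 1)) := by
    intro i hi
    rw [Finset.mem_filter, Finset.mem_range, List.length_append] at hi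
    rw [Finset.mem_union, Finset.mem_union, Finset.mem_filter, Finset.mem_range, Finset.mem_image,
      Finset.mem_image]
    rcases lt_or_ge i l₁.length with h | h
    · rcases le_or_gt (i + w.length) l₁.length with h' | h'
      · left; left
        refine ⟨h, ?_⟩
        have h2 := hi.2
        rw [List.drop_append_of_le_length h.le] at h2
        exact List.prefix_of_prefix_length_le h2 (List.prefix_append _ _)
          (by rw [List.length_drop]; omega)
      · right
        exact ⟨l₁.length - i - 1, Finset.mem_range.mpr (by omega), by omega⟩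
    · left; right
      refine ⟨i - l₁.length, ?_, by omega⟩
      rw [Finset.mem_filter, Finset.mem_range]
      refine ⟨by omega, ?_⟩
      have h2 := hi.2
      rw [List.drop_append, List.drop_eq_nil_of_le h] at h2
      simpa using h2
  refine (Finset.card_le_card hsub).trans ((Finset.card_union_le _ _).trans ?_)
  refine Nat.add_le_add ((Finset.card_union_le _ _).trans ?_) ?_
  · exact Nat.add_le_add le_rfl Finset.card_image_le
  · exact Finset.card_image_le.trans (by simp)

/-- Occurrence counts in powers grow linearly. -/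
theorem occ_pow_tendsto (w C : List (ι × Bool)) :
    ∃ c : ℝ, Tendsto (fun n : ℕ => (occ w (List.replicate n C).flatten : ℝ) / n) atTop (𝓝 c) := by
  set u : ℕ → ℝ := fun n => (occ w (List.replicate n C).flatten : ℝ) + w.length with hu
  have hsub : Subadditive u := by
    intro m n
    have h1 := occ_append_le w (List.replicate m C).flatten (List.replicate n C).flatten
    rw [← List.flatten_append, List.replicate_append_replicate] at h1
    have h2 : (occ w (List.replicate (m + n) C).flatten : ℝ) ≤
      occ w (List.replicate m C).flatten + occ w (List.replicate n C).flatten + w.length := by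
      exact_mod_cast h1
    simp only [hu]
    linarith
  have hbdd : BddBelow (Set.range fun n => u n / n) := by
    refine ⟨0, ?_⟩
    rintro _ ⟨n, rfl⟩
    simp only [hu]
    positivity
  have h3 := hsub.tendsto_lim hbdd
  refine ⟨hsub.lim, ?_⟩
  have h4 : Tendsto (fun n : ℕ => (w.length : ℝ) / n) atTop (𝓝 0) :=
    tendsto_const_div_atTop_nhds_zero_nat _
  have h5 := h3.sub h4
  rw [sub_zero] at h5
  refine h5.congr (fun n => ?_)
  simp only [hu]
  ring

/-- The same with fixed words on both sides. -/
theorem occ_pow_tendsto' (w C U U' : List (ι × Bool)) (c : ℝ)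
    (hc : Tendsto (fun n : ℕ => (occ w (List.replicate n C).flatten : ℝ) / n) atTop (𝓝 c)) :
    Tendsto (fun n : ℕ => (occ w (U ++ (List.replicate n C).flatten ++ U') : ℝ) / n) atTop (𝓝 c) := by
  set D : ℝ := occ w U + occ w U' + 2 * w.length with hD
  have h4 : Tendsto (fun n : ℕ => D / n) atTop (𝓝 0) :=
    tendsto_const_div_atTop_nhds_zero_nat _
  have h5 := hc.add h4
  rw [add_zero] at h5
  refine tendsto_of_tendsto_of_tendsto_of_le_of_le hc h5 ?_ ?_
  · intro n
    refine div_le_div_of_nonneg_right ?_ (Nat.cast_nonneg n)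
    have h1 := occ_append_ge w (U ++ (List.replicate n C).flatten) U'
    have h2 := occ_append_ge w U (List.replicate n C).flatten
    exact Nat.cast_le.mpr (by omega)
  · intro n
    have h1 := occ_append_le w (U ++ (List.replicate n C).flatten) U'
    have h2 := occ_append_le w U (List.replicate n C).flatten
    have h3 : (occ w (U ++ (List.replicate n C).flatten ++ U') : ℝ) ≤
        occ w (List.replicate n C).flatten + D := by
      have : occ w (U ++ (List.replicate n C).flatten ++ U') ≤
        occ w (List.replicate n C).flatten + (occ w U + occ w U' + 2 * w.length) := by omega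
      have h := (Nat.cast_le (α := ℝ)).mpr this
      push_cast at h
      rw [hD]
      linarith
    show _ / _ ≤ _ / _ + _ / _
    rw [← add_div]
    exact div_le_div_of_nonneg_right h3 (Nat.cast_nonneg n)

theorem toWord_pow_eq (g : FreeGroup ι) (n : ℕ) (hn : n ≠ 0) : (g ^ n).toWord =
    reduceCyclically.conjugator g.toWord ++
      (List.replicate n (reduceCyclically g.toWord)).flatten ++
      invRev (reduceCyclically.conjugator g.toWord) := by
  rw [toWord_pow, reduceCyclically.reduce_flatten_replicate isReduced_toWord, if_neg hn]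

/-- The limit defining the homogenization exists. -/
theorem hbar_tendsto (w g : FreeGroup ι) :
    Tendsto (fun n : ℕ => hh w (g ^ n) / n) atTop (𝓝 (hbar w g)) := by
  have key : ∃ c, Tendsto (fun n : ℕ => hh w (g ^ n) / n) atTop (𝓝 c) := by
    obtain ⟨c, hc⟩ := occ_pow_tendsto w.toWord (reduceCyclically g.toWord)
    obtain ⟨d, hd⟩ := occ_pow_tendsto (w⁻¹).toWord (reduceCyclically g.toWord)
    have hc' := occ_pow_tendsto' _ _ (reduceCyclically.conjugator g.toWord)
      (invRev (reduceCyclically.conjugator g.toWord)) c hc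
    have hd' := occ_pow_tendsto' _ _ (reduceCyclically.conjugator g.toWord)
      (invRev (reduceCyclically.conjugator g.toWord)) d hd
    refine ⟨c - d, (hc'.sub hd').congr' ?_⟩
    filter_upwards [eventually_ne_atTop 0] with n hn
    rw [hh, toWord_pow_eq g n hn, sub_div]
  exact tendsto_nhds_limUnder key

/-- A non-self-overlapping word longer than `C` does not occur in powers of `C`. -/
theorem occ_pow_eq_zero (w C : List (ι × Bool))
    (hw : ∀ p : List (ι × Bool), p ≠ [] → p <+: w → p <:+ w → p = w)
    (hlen : C.length < w.length) (n : ℕ) : occ w (List.replicate n C).flatten = 0 := by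
  rcases Nat.eq_zero_or_pos C.length with hC | hC
  · rw [List.length_eq_zero_iff] at hC
    subst hC
    simp [occ]
  -- periodicity of the power
  have hper : ∀ k, k + C.length < n * C.length →
      (List.replicate n C).flatten[k]? = (List.replicate n C).flatten[k + C.length]? := by
    intro k hk
    have hn : n ≠ 0 := by rintro rfl; simp at hk
    obtain ⟨m, rfl⟩ := Nat.exists_eq_succ_of_ne_zero hn
    have e1 : (List.replicate (m + 1) C).flatten = C ++ (List.replicate m C).flatten := by
      rw [List.replicate_succ, List.flatten_cons]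
    have e2 : (List.replicate (m + 1) C).flatten = (List.replicate m C).flatten ++ C := by
      rw [List.replicate_succ', List.flatten_append]
      simp
    rw [Nat.succ_eq_add_one, add_mul, one_mul] at hk
    conv_lhs => rw [Nat.succ_eq_add_one, e2]
    rw [List.getElem?_append_left (by simp; omega)]
    conv_rhs => rw [Nat.succ_eq_add_one, e1]
    rw [List.getElem?_append_right (by omega), Nat.add_sub_cancel]
  unfold occ
  rw [Finset.card_eq_zero, Finset.filter_eq_empty_iff]
  intro i _ hpre
  set P := (List.replicate n C).flatten with hP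
  have hPl : P.length = n * C.length := by simp [hP]
  have hle : w.length ≤ (P.drop i).length := hpre.length_le
  rw [List.length_drop] at hle
  have hget : ∀ j < w.length, w[j]? = P[i + j]? := by
    intro j hj
    obtain ⟨t, ht⟩ := hpre
    rw [← List.getElem?_drop, ← ht, List.getElem?_append_left hj]
  have hsuf : w.drop C.length = w.take (w.length - C.length) := by
    apply List.ext_getElem?
    intro j
    rw [List.getElem?_drop, List.getElem?_take]
    split_ifs with hj
    · rw [hget j (by omega), hget (C.length + j) (by omega), hper (i + j) (by omega)]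
      congr 1
      omega
    · rw [List.getElem?_eq_none (by omega)]
  have h1 := hw (w.take (w.length - C.length)) (by
      intro h0
      have := congrArg List.length h0
      rw [List.length_take, List.length_nil] at this
      omega) (List.take_prefix _ _) (by
      rw [← hsuf]
      exact List.drop_suffix _ _)
  have h2 := congrArg List.length h1
  rw [List.length_take] at h2
  omega

theorem occ_eq_zero_of_length_lt (w G : List (ι × Bool)) (h : G.length < w.length) :
    occ w G = 0 := by
  unfold occ
  rw [Finset.card_eq_zero, Finset.filter_eq_empty_iff]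
  intro i _ hpre
  have := hpre.length_le
  rw [List.length_drop] at this
  omega

theorem norm_eq (w : FreeGroup ι) : w.toWord.length = w.norm := rfl

theorem reduceCyclically_length_le (L : List (ι × Bool)) :
    (reduceCyclically L).length ≤ L.length := by
  conv_rhs => rw [← reduceCyclically.conj_conjugator_reduceCyclically L]
  simp only [List.length_append]
  omega

theorem NSO.inv {w : FreeGroup ι} (h : NSO w) : NSO w⁻¹ := by
  refine ⟨inv_ne_one.mpr h.1, fun p hp h1 h2 => ?_⟩
  rw [toWord_inv] at h1 h2 ⊢
  have hinv : ∀ l : List (ι × Bool), invRev (invRev l) = l := fun l => invRev_invRev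
  have h3 : invRev p <:+ w.toWord := by
    obtain ⟨t, ht⟩ := h1
    refine ⟨invRev t, ?_⟩
    rw [← hinv w.toWord, ← ht, invRev_append]
  have h4 : invRev p <+: w.toWord := by
    obtain ⟨t, ht⟩ := h2
    refine ⟨invRev t, ?_⟩
    rw [← hinv w.toWord, ← ht, invRev_append]
  have h5 := h.2 (invRev p) (by
    intro h0
    apply hp
    rw [← hinv p, h0]
    rfl) h4 h3
  rw [← h5, hinv]

theorem hh_eq_zero {w g : FreeGroup ι} (h : g.norm < w.norm) : hh w g = 0 := by
  unfold hh
  rw [occ_eq_zero_of_length_lt _ _ h, occ_eq_zero_of_length_lt _ _ (by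
    change g.norm < (w⁻¹).norm
    rw [norm_inv_eq]; exact h)]
  simp

theorem hbar_eq_zero {w g : FreeGroup ι} (hw : NSO w) (h : g.norm < w.norm) : hbar w g = 0 := by
  have h1 : ∀ v : FreeGroup ι, NSO v → g.norm < v.norm →
      Tendsto (fun n : ℕ => (occ v.toWord (reduceCyclically.conjugator g.toWord ++
      (List.replicate n (reduceCyclically g.toWord)).flatten ++
      invRev (reduceCyclically.conjugator g.toWord)) : ℝ) / n) atTop (𝓝 0) := by
    intro v hv hlt
    apply occ_pow_tendsto'
    refine tendsto_const_nhds.congr (fun n => ?_)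
    rw [occ_pow_eq_zero v.toWord _ hv.2 ((reduceCyclically_length_le _).trans_lt hlt) n]
    simp
  have h2 := (h1 w hw h).sub (h1 w⁻¹ hw.inv (by rw [norm_inv_eq]; exact h))
  rw [sub_zero] at h2
  refine tendsto_nhds_unique (hbar_tendsto w g) (h2.congr' ?_)
  filter_upwards [eventually_ne_atTop 0] with n hn
  rw [hh, toWord_pow_eq g n hn, sub_div]

end occurrences

section sums

variable {ι : Type} [DecidableEq ι] [Finite ι]

theorem ball_finite (n : ℕ) : {w : FreeGroup ι | w.norm ≤ n}.Finite := by
  have h : {w : FreeGroup ι | w.norm ≤ n} ⊆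
      (fun l : List (ι × Bool) => FreeGroup.mk l) '' {l | l.length ≤ n} := by
    intro w hw
    exact ⟨w.toWord, hw, mk_toWord⟩
  exact ((List.finite_length_le (ι × Bool) n).image _).subset h

/-- The factor of length `l` at position `i` of the word `G`. -/
def fac (G : List (ι × Bool)) (l i : ℕ) : FreeGroup ι := FreeGroup.mk ((G.drop i).take l)

omit [Finite ι] in
theorem fac_toWord {G : List (ι × Bool)} (hG : IsReduced G) (l i : ℕ) :
    (fac G l i).toWord = (G.drop i).take l := by
  rw [fac, toWord_mk]
  apply IsReduced.reduce_eq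
  have h1 : IsReduced (G.take i ++ G.drop i) := by rw [List.take_append_drop]; exact hG
  have h2 : IsReduced (G.drop i) := List.IsChain.right_of_append h1
  have h3 : IsReduced ((G.drop i).take l ++ (G.drop i).drop l) := by
    rw [List.take_append_drop]; exact h2
  exact List.IsChain.left_of_append h3

/-- Occurrences counted through factors. -/
theorem occ_eq_sum {G : List (ι × Bool)} (hG : IsReduced G) (w : FreeGroup ι) (L : ℕ)
    (h1 : w ≠ 1) (hL : w.norm ≤ L) :
    (occ w.toWord G : ℝ) = ∑ l ∈ Finset.range L, ∑ i ∈ Finset.range (G.length - l),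
      if fac G (l + 1) i = w then (1 : ℝ) else 0 := by
  have hw0 : 0 < w.norm := by
    rw [Nat.pos_iff_ne_zero]
    intro h
    exact h1 (norm_eq_zero.mp h)
  rw [Finset.sum_eq_single (w.norm - 1)]
  · rw [show w.norm - 1 + 1 = w.norm by omega]
    rw [← Finset.sum_filter, Finset.sum_const, nsmul_eq_mul, mul_one]
    congr 1
    unfold occ
    congr 1
    ext i
    rw [Finset.mem_filter, Finset.mem_filter, Finset.mem_range, Finset.mem_range]
    constructor
    · rintro ⟨h2, h3⟩
      have h4 := h3.length_le
      rw [List.length_drop, norm_eq] at h4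
      refine ⟨by omega, ?_⟩
      apply toWord_injective
      rw [fac_toWord hG, ← norm_eq]
      exact (List.prefix_iff_eq_take.mp h3).symm
    · rintro ⟨h2, h3⟩
      refine ⟨by omega, ?_⟩
      rw [← h3, fac_toWord hG]
      exact List.take_prefix _ _
  · intro l _ hl
    apply Finset.sum_eq_zero
    intro i hi
    rw [Finset.mem_range] at hi
    rw [if_neg]
    rintro rfl
    apply hl
    rw [← norm_eq, fac_toWord hG, List.length_take, List.length_drop]
    omega
  · intro h
    rw [Finset.mem_range] at h
    omega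

open Classical in
/-- Summation over a choice of representatives equals the sum of `α` over all short factors. -/
theorem sum_half {α : FreeGroup ι → ℝ} (halt : ∀ w, α w⁻¹ = - α w) (hsupp : ∀ w, ¬ NSO w → α w = 0)
    {Np : Set (FreeGroup ι)} (hNp : IsHalf Np) (g : FreeGroup ι) (L : ℕ) :
    ∑ w ∈ (ball_finite (ι := ι) L).toFinset.filter (· ∈ Np), α w * hh w g =
      ∑ l ∈ Finset.range L, ∑ i ∈ Finset.range (g.toWord.length - l),
        α (fac g.toWord (l + 1) i) := by
  set G := g.toWord with hG
  have hGr : IsReduced G := isReduced_toWord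
  have e1 : ∀ w ∈ (ball_finite (ι := ι) L).toFinset.filter (· ∈ Np), α w * hh w g =
      ∑ l ∈ Finset.range L, ∑ i ∈ Finset.range (G.length - l),
        ((if fac G (l + 1) i = w then α (fac G (l + 1) i) else 0) +
          (if (fac G (l + 1) i)⁻¹ = w then α (fac G (l + 1) i) else 0)) := by
    intro w hw
    rw [Finset.mem_filter, Set.Finite.mem_toFinset] at hw
    have hn := hNp.1 w hw.2
    rw [hh, occ_eq_sum hGr w L hn.1 hw.1, occ_eq_sum hGr w⁻¹ L hn.inv.1 (by
      rw [norm_inv_eq]; exact hw.1), ← Finset.sum_sub_distrib, Finset.mul_sum]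
    apply Finset.sum_congr rfl
    intro l _
    rw [← Finset.sum_sub_distrib, Finset.mul_sum]
    apply Finset.sum_congr rfl
    intro i _
    have hi : ((fac G (l + 1) i)⁻¹ = w) ↔ (fac G (l + 1) i = w⁻¹) := inv_eq_iff_eq_inv
    by_cases h1 : fac G (l + 1) i = w
    · by_cases h2 : fac G (l + 1) i = w⁻¹
      · rw [if_pos h1, if_pos h2, if_pos h1, if_pos (hi.mpr h2)]
        have : α (fac G (l + 1) i) = - α (fac G (l + 1) i) := by
          conv_lhs => rw [h2, halt, ← h1]
        linarith
      · rw [if_pos h1, if_neg h2, if_pos h1, if_neg (fun h => h2 (hi.mp h)), h1]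
        ring
    · by_cases h2 : fac G (l + 1) i = w⁻¹
      · rw [if_neg h1, if_pos h2, if_neg h1, if_pos (hi.mpr h2), h2, halt]
        ring
      · rw [if_neg h1, if_neg h2, if_neg h1, if_neg (fun h => h2 (hi.mp h))]
        ring
  rw [Finset.sum_congr rfl e1, Finset.sum_comm]
  apply Finset.sum_congr rfl
  intro l hl
  rw [Finset.mem_range] at hl
  rw [Finset.sum_comm]
  apply Finset.sum_congr rfl
  intro i _
  rw [Finset.sum_add_distrib, Finset.sum_ite_eq, Finset.sum_ite_eq]
  set u := fac G (l + 1) i with hu
  have hun : u.norm ≤ L := by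
    rw [← norm_eq, hu, fac_toWord hGr, List.length_take]
    omega
  have hun' : (u⁻¹).norm ≤ L := by rw [norm_inv_eq]; exact hun
  simp only [Finset.mem_filter, Set.Finite.mem_toFinset, Set.mem_setOf_eq, hun, hun', true_and]
  by_cases hN : NSO u
  · rcases hNp.2 u hN with ⟨h1, h2⟩ | ⟨h1, h2⟩
    · rw [if_pos h1, if_neg h2, add_zero]
    · rw [if_neg h2, if_pos h1, zero_add]
  · rw [hsupp u hN]
    simp

open Classical in
theorem phi_eq {α : FreeGroup ι → ℝ} (halt : ∀ w, α w⁻¹ = - α w) (hsupp : ∀ w, ¬ NSO w → α w = 0)
    {Np : Set (FreeGroup ι)} (hNp : IsHalf Np) (g : FreeGroup ι) :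
    phi α Np g = ∑ l ∈ Finset.range g.norm, ∑ i ∈ Finset.range (g.toWord.length - l),
        α (fac g.toWord (l + 1) i) := by
  rw [← sum_half halt hsupp hNp g g.norm]
  unfold phi
  apply finsum_mem_eq_sum_of_inter_support_eq
  ext w
  simp only [Set.mem_inter_iff, Function.mem_support, Finset.coe_filter, Set.Finite.mem_toFinset,
    Set.mem_setOf_eq]
  constructor
  · rintro ⟨h1, h2⟩
    refine ⟨⟨?_, h1⟩, h2⟩
    by_contra hcon
    exact h2 (by rw [hh_eq_zero (not_le.mp hcon), mul_zero])
  · rintro ⟨⟨-, h1⟩, h2⟩
    exact ⟨h1, h2⟩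

open Classical in
/-- If the sums of `α` over factors telescope, the termwise homogenization vanishes. -/
theorem phiTilde_eq_zero {α : FreeGroup ι → ℝ} (halt : ∀ w, α w⁻¹ = - α w)
    (hsupp : ∀ w, ¬ NSO w → α w = 0) {Np : Set (FreeGroup ι)} (hNp : IsHalf Np) (g : FreeGroup ι)
    (hb : ∀ (L : ℕ) (x : FreeGroup ι), |∑ l ∈ Finset.range L,
      ∑ i ∈ Finset.range (x.toWord.length - l), α (fac x.toWord (l + 1) i)| ≤ L) :
    phiTilde α Np g = 0 := by
  have h1 : phiTilde α Np g =
      ∑ w ∈ (ball_finite (ι := ι) g.norm).toFinset.filter (· ∈ Np), α w * hbar w g := by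
    unfold phiTilde
    apply finsum_mem_eq_sum_of_inter_support_eq
    ext w
    simp only [Set.mem_inter_iff, Function.mem_support, Finset.coe_filter, Set.Finite.mem_toFinset,
      Set.mem_setOf_eq]
    constructor
    · rintro ⟨h1, h2⟩
      refine ⟨⟨?_, h1⟩, h2⟩
      by_contra hcon
      exact h2 (by rw [hbar_eq_zero (hNp.1 w h1) (not_le.mp hcon), mul_zero])
    · rintro ⟨⟨-, h1⟩, h2⟩
      exact ⟨h1, h2⟩
  have h2 : Tendsto (fun n : ℕ => ∑ w ∈ (ball_finite (ι := ι) g.norm).toFinset.filter (· ∈ Np),
      α w * (hh w (g ^ n) / n)) atTop (𝓝 (phiTilde α Np g)) := by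
    rw [h1]
    exact tendsto_finset_sum _ (fun w _ => (hbar_tendsto w g).const_mul _)
  have h3 : Tendsto (fun n : ℕ => ∑ w ∈ (ball_finite (ι := ι) g.norm).toFinset.filter (· ∈ Np),
      α w * (hh w (g ^ n) / n)) atTop (𝓝 0) := by
    have h4 : Tendsto (fun n : ℕ => (g.norm : ℝ) / n) atTop (𝓝 0) :=
      tendsto_const_div_atTop_nhds_zero_nat _
    refine squeeze_zero_norm (fun n => ?_) h4
    have h5 := hb g.norm (g ^ n)
    rw [← sum_half halt hsupp hNp (g ^ n) g.norm] at h5
    have h6 : ∑ w ∈ (ball_finite (ι := ι) g.norm).toFinset.filter (· ∈ Np),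
      α w * (hh w (g ^ n) / n) = (∑ w ∈ (ball_finite (ι := ι) g.norm).toFinset.filter (· ∈ Np),
      α w * hh w (g ^ n)) / n := by
      rw [Finset.sum_div]
      exact Finset.sum_congr rfl (fun w _ => by ring)
    rw [h6, norm_div, Real.norm_eq_abs, RCLike.norm_natCast]
    exact div_le_div_of_nonneg_right h5 (Nat.cast_nonneg n)
  exact tendsto_nhds_unique h2 h3

end sums

section construction

variable {ι : Type} [DecidableEq ι] (a b : ι)

/-- The word `(b a⁻¹)^n`. -/
def rp (n : ℕ) : List (ι × Bool) := (List.replicate n [(b, true), (a, false)]).flatten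

/-- The word `v_n = a (b a⁻¹)^n`. -/
def vp (n : ℕ) : List (ι × Bool) := (a, true) :: rp a b n

/-- The words `v_n` with `n ≥ 1` and their inverses. -/
def VV : Set (List (ι × Bool)) := {v | ∃ n, 1 ≤ n ∧ (v = vp a b n ∨ v = invRev (vp a b n))}

open Classical in
/-- The indicator function of `VV`. -/
noncomputable def chi (v : List (ι × Bool)) : ℝ := if v ∈ VV a b then 1 else 0

/-- The coefficient map. -/
noncomputable def al (w : FreeGroup ι) : ℝ := chi a b w.toWord.dropLast - chi a b w.toWord.tail

variable {a b}

theorem VV_inv {v : List (ι × Bool)} (h : v ∈ VV a b) : invRev v ∈ VV a b := by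
  obtain ⟨n, hn, h | h⟩ := h
  · exact ⟨n, hn, Or.inr (by rw [h])⟩
  · exact ⟨n, hn, Or.inl (by rw [h, invRev_invRev])⟩

theorem chi_inv (v : List (ι × Bool)) : chi a b (invRev v) = chi a b v := by
  unfold chi
  by_cases h : v ∈ VV a b
  · rw [if_pos h, if_pos (VV_inv h)]
  · rw [if_neg h, if_neg]
    intro h'
    apply h
    rw [← invRev_invRev (L₁ := v)]
    exact VV_inv h'

theorem invRev_dropLast (v : List (ι × Bool)) : (invRev v).dropLast = invRev v.tail := by
  cases v with
  | nil => rfl
  | cons x v => simp [invRev]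

theorem invRev_tail (v : List (ι × Bool)) : (invRev v).tail = invRev v.dropLast := by
  have h := invRev_dropLast (invRev v)
  rw [invRev_invRev] at h
  rw [h, invRev_invRev]

theorem al_inv (w : FreeGroup ι) : al a b w⁻¹ = - al a b w := by
  unfold al
  rw [toWord_inv, invRev_dropLast, invRev_tail, chi_inv, chi_inv]
  ring

theorem rp_succ (n : ℕ) : rp a b (n + 1) = (b, true) :: (a, false) :: rp a b n := by
  simp [rp, List.replicate_succ]

theorem rp_succ' (n : ℕ) : rp a b (n + 1) = rp a b n ++ [(b, true), (a, false)] := by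
  simp [rp, List.replicate_succ', List.flatten_append]

theorem not_mem_rp (hab : a ≠ b) (n : ℕ) : (a, true) ∉ rp a b n := by
  induction n with
  | zero => simp [rp]
  | succ n ih => rw [rp_succ]; simp [hab, ih]

/-- Border lemma: `v x` for `v = A t`, `A ∉ t`, `x ≠ A`. -/
theorem border_right {X : Type} (A x : X) (t : List X) (hA : A ∉ t) (hx : x ≠ A) (s : List X)
    (hs : s ≠ []) (h1 : s <+: (A :: t) ++ [x]) (h2 : s <:+ (A :: t) ++ [x]) :
    s = (A :: t) ++ [x] := by
  obtain ⟨r, hr⟩ := h2
  cases r with
  | nil => simpa using hr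
  | cons y r =>
    exfalso
    obtain ⟨z, s', rfl⟩ := List.exists_cons_of_ne_nil hs
    obtain ⟨q, hq⟩ := h1
    rw [List.cons_append, List.cons_append, List.cons.injEq] at hq hr
    have h3 : A ∈ t ++ [x] := by
      rw [← hr.2, ← hq.1]
      simp
    rw [List.mem_append, List.mem_singleton] at h3
    rcases h3 with h3 | h3
    · exact hA h3
    · exact hx h3.symm

/-- Border lemma: `x v` for `v = A t`, `A ∉ t`, `t ≠ []`, `x` not the last letter of `v`. -/
theorem border_left {X : Type} (A x : X) (t : List X) (hA : A ∉ t) (ht : t ≠ [])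
    (hx : x ≠ t.getLast ht) (s : List X) (hs : s ≠ []) (h1 : s <+: x :: (A :: t))
    (h2 : s <:+ x :: (A :: t)) : s = x :: (A :: t) := by
  obtain ⟨r, hr⟩ := h2
  cases r with
  | nil => simpa using hr
  | cons y r =>
    exfalso
    rw [List.cons_append, List.cons.injEq] at hr
    obtain ⟨z, s', rfl⟩ := List.exists_cons_of_ne_nil hs
    obtain ⟨q, hq⟩ := h1
    rw [List.cons_append, List.cons.injEq] at hq
    cases r with
    | nil =>
      rw [List.nil_append, List.cons.injEq] at hr
      -- `s' = t` and `z = A`, `s' ++ q = A :: t`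
      obtain ⟨-, hz, hs'⟩ := hr
      rw [hs'] at hq
      obtain ⟨c, t', rfl⟩ := List.exists_cons_of_ne_nil ht
      have := hq.2
      rw [List.cons_append, List.cons.injEq] at this
      exact hA (this.1 ▸ List.mem_cons_self)
    | cons y' r =>
      rw [List.cons_append, List.cons.injEq] at hr
      have hmem : ∀ c ∈ z :: s', c ∈ t := by
        intro c hc
        rw [← hr.2.2]
        exact List.mem_append_right _ hc
      cases s' with
      | nil =>
        apply hx
        have h3 : t.getLast ht = z := by
          have h4 := hr.2.2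
          simp only [← h4]
          simp
        rw [h3, hq.1]
      | cons c s' =>
        have := hq.2
        rw [List.cons_append, List.cons.injEq] at this
        exact hA (this.1 ▸ hmem c (by simp))

theorem vp_last (n : ℕ) (hn : 1 ≤ n) : ∃ l, vp a b n = l ++ [(a, false)] ∧
    ∀ h : rp a b n ≠ [], (rp a b n).getLast h = (a, false) := by
  obtain ⟨m, rfl⟩ := Nat.exists_eq_add_of_le' hn
  refine ⟨(a, true) :: (rp a b m ++ [(b, true)]), ?_, ?_⟩
  · rw [vp, rp_succ']; simp
  · intro h
    simp only [rp_succ']
    simp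

theorem rp_ne_nil (n : ℕ) (hn : 1 ≤ n) : rp a b n ≠ [] := by
  obtain ⟨m, rfl⟩ := Nat.exists_eq_add_of_le' hn
  rw [rp_succ]; simp

theorem NSO_of_dropLast (hab : a ≠ b) {w : FreeGroup ι} {n : ℕ} (hn : 1 ≤ n)
    (h : w.toWord.dropLast = vp a b n) : NSO w := by
  have hne : w.toWord ≠ [] := by
    intro h0
    rw [h0] at h
    simp [vp] at h
  have h1 : w.toWord = vp a b n ++ [w.toWord.getLast hne] := by
    rw [← h, List.dropLast_append_getLast]
  set x := w.toWord.getLast hne with hx
  refine ⟨?_, ?_⟩
  · rintro rfl
    exact hne toWord_one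
  · intro p hp hp1 hp2
    rw [h1] at hp1 hp2 ⊢
    refine border_right (a, true) x (rp a b n) (not_mem_rp hab n) ?_ p hp hp1 hp2
    intro hxa
    obtain ⟨l, hl, -⟩ := vp_last (a := a) (b := b) n hn
    have hred : IsReduced w.toWord := isReduced_toWord
    rw [h1, hl, hxa, List.append_assoc] at hred
    have h2 : IsReduced [((a, false) : ι × Bool), (a, true)] :=
      List.IsChain.right_of_append hred
    rw [isReduced_cons_cons] at h2
    simp at h2

theorem NSO_of_tail (hab : a ≠ b) {w : FreeGroup ι} {n : ℕ} (hn : 1 ≤ n)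
    (h : w.toWord.tail = vp a b n) : NSO w := by
  have hne : w.toWord ≠ [] := by
    intro h0
    rw [h0] at h
    simp [vp] at h
  obtain ⟨x, t, hxt⟩ := List.exists_cons_of_ne_nil hne
  rw [hxt, List.tail_cons] at h
  subst h
  refine ⟨?_, ?_⟩
  · rintro rfl
    exact hne toWord_one
  · intro p hp hp1 hp2
    rw [hxt] at hp1 hp2 ⊢
    refine border_left (a, true) x (rp a b n) (not_mem_rp hab n) (rp_ne_nil n hn) ?_ p hp hp1 hp2
    obtain ⟨l, -, hl⟩ := vp_last (a := a) (b := b) n hn
    rw [hl]
    intro hxa
    have hred : IsReduced w.toWord := isReduced_toWord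
    rw [hxt, hxa, vp, isReduced_cons_cons] at hred
    simp at hred

theorem al_supp (hab : a ≠ b) (w : FreeGroup ι) (hw : ¬ NSO w) : al a b w = 0 := by
  have h1 : w.toWord.dropLast ∉ VV a b := by
    rintro ⟨n, hn, h | h⟩
    · exact hw (NSO_of_dropLast hab hn h)
    · apply hw
      rw [← inv_inv w]
      apply NSO.inv
      apply NSO_of_tail hab hn
      rw [toWord_inv, invRev_tail, h, invRev_invRev]
  have h2 : w.toWord.tail ∉ VV a b := by
    rintro ⟨n, hn, h | h⟩
    · exact hw (NSO_of_tail hab hn h)
    · apply hw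
      rw [← inv_inv w]
      apply NSO.inv
      apply NSO_of_dropLast hab hn
      rw [toWord_inv, invRev_dropLast, h, invRev_invRev]
  rw [al, chi, chi, if_neg h1, if_neg h2, sub_zero]

theorem telescope {G : List (ι × Bool)} (hG : IsReduced G) (l : ℕ) :
    ∑ i ∈ Finset.range (G.length - l), al a b (fac G (l + 1) i) =
      chi a b (G.take l) - chi a b ((G.drop (G.length - l)).take l) := by
  have h1 : ∀ i ∈ Finset.range (G.length - l), al a b (fac G (l + 1) i) =
      chi a b ((G.drop i).take l) - chi a b ((G.drop (i + 1)).take l) := by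
    intro i hi
    rw [Finset.mem_range] at hi
    rw [al, fac_toWord hG]
    congr 2
    · apply List.ext_getElem?
      intro j
      rw [List.getElem?_dropLast, List.getElem?_take, List.getElem?_take]
      simp only [List.length_take, List.length_drop]
      split_ifs <;> first | rfl | omega
    · rw [← List.drop_one, List.drop_take, List.drop_drop]
      congr 1
  rw [Finset.sum_congr rfl h1, Finset.sum_range_sub' (fun i => chi a b ((G.drop i).take l)),
    List.drop_zero]

theorem chi_le (v : List (ι × Bool)) : 0 ≤ chi a b v ∧ chi a b v ≤ 1 := by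
  unfold chi
  split_ifs <;> norm_num

theorem al_bound (L : ℕ) (x : FreeGroup ι) : |∑ l ∈ Finset.range L,
    ∑ i ∈ Finset.range (x.toWord.length - l), al a b (fac x.toWord (l + 1) i)| ≤ L := by
  refine (Finset.abs_sum_le_sum_abs _ _).trans ?_
  have : ∀ l ∈ Finset.range L,
      |∑ i ∈ Finset.range (x.toWord.length - l), al a b (fac x.toWord (l + 1) i)| ≤ 1 := by
    intro l _
    rw [telescope isReduced_toWord, abs_le]
    have h1 := chi_le (a := a) (b := b) (x.toWord.take l)
    have h2 := chi_le (a := a) (b := b) ((x.toWord.drop (x.toWord.length - l)).take l)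
    constructor <;> linarith
  refine (Finset.sum_le_sum this).trans ?_
  simp

theorem VV_head {v : List (ι × Bool)} (h : v ∈ VV a b) : v.head? = some (a, true) := by
  obtain ⟨n, hn, h | h⟩ := h
  · rw [h]; rfl
  · obtain ⟨l, hl, -⟩ := vp_last (a := a) (b := b) n hn
    rw [h, hl, invRev_append]
    simp [invRev]

theorem VV_last {v : List (ι × Bool)} (h : v ∈ VV a b) : v.getLast? = some (a, false) := by
  obtain ⟨n, hn, h | h⟩ := h
  · obtain ⟨l, hl, -⟩ := vp_last (a := a) (b := b) n hn
    rw [h, hl]
    simp
  · rw [h, vp]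
    simp [invRev]

theorem phi_al [Finite ι] (hab : a ≠ b) {Np : Set (FreeGroup ι)} (hNp : IsHalf Np)
    (g : FreeGroup ι) : phi (al a b) Np g = ∑ l ∈ Finset.range g.norm,
      (chi a b (g.toWord.take l) - chi a b ((g.toWord.drop (g.toWord.length - l)).take l)) := by
  rw [phi_eq al_inv (al_supp hab) hNp]
  exact Finset.sum_congr rfl (fun l _ => telescope isReduced_toWord l)

/-- Words ending in `b` have no suffix contribution. -/
theorem suffix_zero (_hab : a ≠ b) (G : List (ι × Bool)) (l : ℕ) (hl : l ≤ G.length)
    (hG : G.getLast? = some (b, true)) :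
    chi a b ((G.drop (G.length - l)).take l) = 0 := by
  unfold chi
  rw [if_neg]
  intro h
  have h1 := VV_last h
  have h2 : (G.drop (G.length - l)).take l = G.drop (G.length - l) := by
    apply List.take_of_length_le
    rw [List.length_drop]; omega
  rw [h2, List.getLast?_drop, hG] at h1
  split_ifs at h1
  simp at h1

theorem prefix_zero (G : List (ι × Bool)) (l : ℕ) (hG : G.head? ≠ some (a, true)) :
    chi a b (G.take l) = 0 := by
  unfold chi
  rw [if_neg]
  intro h
  have h1 := VV_head h
  apply hG
  cases l with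
  | zero => simp at h1
  | succ l =>
    cases G with
    | nil => simp at h1
    | cons x G => simpa using h1

/-- The test words. -/
def gl (n : ℕ) : List (ι × Bool) := vp a b n ++ [(b, true)]

theorem rp_reduced (hab : a ≠ b) (n : ℕ) : ∀ y : ι × Bool, y.1 = a →
    IsReduced (y :: (rp a b n ++ [(b, true)])) := by
  induction n with
  | zero =>
    intro y hy
    simp only [rp, List.replicate_zero, List.flatten_nil, List.nil_append]
    rw [isReduced_cons_cons]
    exact ⟨fun h => absurd (hy.symm.trans h) hab, IsReduced.singleton⟩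
  | succ n ih =>
    intro y hy
    rw [rp_succ, List.cons_append, List.cons_append, isReduced_cons_cons, isReduced_cons_cons]
    exact ⟨fun h => absurd (hy.symm.trans h) hab, fun h => absurd h.symm hab, ih _ rfl⟩

theorem gl_reduced (hab : a ≠ b) (n : ℕ) : IsReduced (gl (a := a) (b := b) n) :=
  rp_reduced hab n (a, true) rfl

theorem bgl_reduced (hab : a ≠ b) (n : ℕ) :
    IsReduced ((b, true) :: gl (a := a) (b := b) n) := by
  have h := gl_reduced (a := a) (b := b) hab n
  rw [gl, vp, List.cons_append] at h ⊢
  rw [isReduced_cons_cons]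
  exact ⟨fun h => absurd h.symm hab, h⟩

theorem rp_length (n : ℕ) : (rp a b n).length = 2 * n := by
  induction n with
  | zero => simp [rp]
  | succ n ih => rw [rp_succ]; simp [ih]; ring

theorem take_gl (n k : ℕ) (hk : k ≤ n) : (gl (a := a) (b := b) n).take (2 * k + 1) = vp a b k := by
  obtain ⟨m, rfl⟩ := Nat.exists_eq_add_of_le hk
  have h1 : gl (a := a) (b := b) (k + m) = vp a b k ++ (rp a b m ++ [(b, true)]) := by
    rw [gl, vp, vp, rp, List.replicate_add, List.flatten_append]
    simp [rp]
  rw [h1]
  have h2 : (vp a b k).length = 2 * k + 1 := by rw [vp, List.length_cons, rp_length]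
  rw [← h2, List.take_left]

theorem phi_gl [Finite ι] (hab : a ≠ b) {Np : Set (FreeGroup ι)} (hNp : IsHalf Np) (n : ℕ) :
    (n : ℝ) ≤ phi (al a b) Np (FreeGroup.mk (gl (a := a) (b := b) n)) := by
  have hw : (FreeGroup.mk (gl (a := a) (b := b) n)).toWord = gl (a := a) (b := b) n := by
    rw [toWord_mk, (gl_reduced hab n).reduce_eq]
  have hlen : (gl (a := a) (b := b) n).length = 2 * n + 2 := by
    rw [gl, List.length_append, vp, List.length_cons, rp_length]
    simp
  rw [phi_al hab hNp, ← norm_eq, hw, hlen]
  have h1 : ∀ l ∈ Finset.range (2 * n + 2), chi a b ((gl (a := a) (b := b) n).take l) -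
      chi a b (((gl (a := a) (b := b) n).drop (2 * n + 2 - l)).take l) =
      chi a b ((gl (a := a) (b := b) n).take l) := by
    intro l hl
    rw [Finset.mem_range] at hl
    have := suffix_zero hab (gl (a := a) (b := b) n) l (by rw [hlen]; omega) (by simp [gl])
    rw [hlen] at this
    rw [this, sub_zero]
  rw [Finset.sum_congr rfl h1]
  have h2 : (Finset.Icc 1 n).image (fun k => 2 * k + 1) ⊆ Finset.range (2 * n + 2) := by
    intro l hl
    rw [Finset.mem_image] at hl
    obtain ⟨k, hk, rfl⟩ := hl
    rw [Finset.mem_Icc] at hk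
    rw [Finset.mem_range]
    omega
  refine le_trans ?_ (Finset.sum_le_sum_of_subset_of_nonneg h2
    (fun l _ _ => (chi_le _).1))
  rw [Finset.sum_image (fun x _ y _ h => by simpa using h)]
  have h3 : ∀ k ∈ Finset.Icc 1 n, chi a b ((gl (a := a) (b := b) n).take (2 * k + 1)) = 1 := by
    intro k hk
    rw [Finset.mem_Icc] at hk
    rw [take_gl n k hk.2, chi, if_pos ⟨k, hk.1, Or.inl rfl⟩]
  rw [Finset.sum_congr rfl h3]
  simp

theorem phi_zero [Finite ι] (hab : a ≠ b) {Np : Set (FreeGroup ι)} (hNp : IsHalf Np)
    (G : List (ι × Bool)) (hred : IsReduced G) (h1 : G.head? ≠ some (a, true))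
    (h2 : G.getLast? = some (b, true)) : phi (al a b) Np (FreeGroup.mk G) = 0 := by
  have hw : (FreeGroup.mk G).toWord = G := by rw [toWord_mk, hred.reduce_eq]
  rw [phi_al hab hNp, ← norm_eq, hw]
  apply Finset.sum_eq_zero
  intro l hl
  rw [Finset.mem_range] at hl
  rw [prefix_zero G l h1, suffix_zero hab G l hl.le h2, sub_zero]

theorem not_quasi [Finite ι] (hab : a ≠ b) {Np : Set (FreeGroup ι)} (hNp : IsHalf Np) :
    ¬ IsQuasimorphism (phi (al a b) Np) := by
  rintro ⟨D, hD⟩
  obtain ⟨n, hn⟩ := exists_nat_gt D
  have h1 := hD (FreeGroup.mk [(b, true)]) (FreeGroup.mk (gl (a := a) (b := b) n))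
  rw [FreeGroup.mul_mk, List.singleton_append,
    phi_zero hab hNp [(b, true)] IsReduced.singleton (by simp [hab.symm]) (by simp),
    phi_zero hab hNp _ (bgl_reduced hab n) (by simp [hab.symm])
      (by rw [gl, ← List.cons_append, List.getLast?_append]; simp)] at h1
  have h2 := phi_gl (a := a) (b := b) hab hNp n
  have h3 := le_abs_self (0 + phi (al a b) Np (FreeGroup.mk (gl (a := a) (b := b) n)) - 0)
  linarith

end construction

/-- In every non-abelian free group of finite rank there is an alternating coefficient map `α`,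
supported on the non-self-overlapping words and with values in `{-1, 0, 1}`, such that for every
choice `Np` of representatives `φ̃_α` is identically zero (in particular a quasimorphism) and `φ_α`
is not a quasimorphism. Moreover the limits defining the `h̄_w` exist, and `h̄_w(g) = 0` if `w` is
non-self-overlapping and `|g| < |w|`. -/
theorem result (ι : Type) [DecidableEq ι] [Finite ι] [Nontrivial ι] :
    (∀ w g : FreeGroup ι, Tendsto (fun n : ℕ => hh w (g ^ n) / n) atTop (𝓝 (hbar w g))) ∧
    (∀ w g : FreeGroup ι, NSO w → g.norm < w.norm → hh w g = 0 ∧ hbar w g = 0) ∧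
    ∃ α : FreeGroup ι → ℝ,
      (∀ w, α w⁻¹ = - α w) ∧ (∀ w, ¬ NSO w → α w = 0) ∧ (∀ w, α w = -1 ∨ α w = 0 ∨ α w = 1) ∧
      ∀ Np : Set (FreeGroup ι), IsHalf Np →
        (∀ g, phiTilde α Np g = 0) ∧ IsQuasimorphism (phiTilde α Np) ∧
          ¬ IsQuasimorphism (phi α Np) := by
  refine ⟨hbar_tendsto, fun w g hw h => ⟨hh_eq_zero h, hbar_eq_zero hw h⟩, ?_⟩
  obtain ⟨a, b, hab⟩ := exists_pair_ne ι
  refine ⟨al a b, al_inv, al_supp hab, ?_, ?_⟩
  · intro w
    unfold al chi
    split_ifs <;> norm_num
  · intro Np hNp
    have h0 : ∀ g, phiTilde (al a b) Np g = 0 := fun g =>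
      phiTilde_eq_zero al_inv (al_supp hab) hNp g al_bound
    refine ⟨h0, ⟨0, fun g h => ?_⟩, not_quasi hab hNp⟩
    rw [h0, h0, h0]
    simp

end Pool.Agent.Results.MP_c1a8be_al.BrooksSums
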